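import Pool.Agent.TH925.BR.Red2

/-!
# MP_381749_lc: lower intervals of the strong Bruhat order

The classes `SharpP` and `FP`, Turing reductions and `SharpPHard` are defined in
`Pool/Agent/H527R2/SharpP.lean`, `PolyTime` (Mathlib Turing machines) and the bit code `bits` in
`Pool/Agent/NPC/Defs.lean`, the strong Bruhat order `Bruhat` on the permutations of `Fin n` and the
counting function `below` in `Pool/Agent/TH925/BR/Defs.lean`.

Sketch.  The permanent of a staircase matrix (a zero-one matrix whose zeros above the diagonal form
a Ferrers shape in the corner, and those below the diagonal as well) is `#P`-hard to compute
(`Pool/Agent/H618R2/Skew`).  For such an `n × n` matrix `A` with ones on the diagonal take `2 n`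
blocks of positions and of values, of the sizes `y, y - 1, y, y - 1, ...`.  The ones of `A` outside
the diagonal become off-diagonal blocks containing one entry of the permutation, the blocks next to
the diagonal get as many entries as are necessary for the row and the column sums, and the rest of
the entries is on the diagonal; `w` is the longest permutation with these block counts.  By the
criterion of Ehresmann, which is compared only at the corners of the blocks, and since the zeros of
`A` are in two Ferrers shapes, a permutation is below `w` iff its numbers of entries in the north
east and in the south west of the corners on the diagonal and of the corners of the two shapes are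
at most those of `w`.  So `|[id, w]|` is the product of the factorials of the sizes of the blocks
and the number `T(y)` of words with such off-diagonal block counts; `T` is a polynomial in `y` of
polynomial degree, and `T(1)` is the permanent of `A` (for `y = 1` the blocks of size `y - 1`
vanish).  The values of `T` at large `y` give `T(1)` by extrapolation.
-/

namespace Pool.Agent.Results.MP_381749_lc.BruhatIntervals

open Pool.Agent.NPC Pool.Agent.NPC.Cnt Pool.Agent.TH925.BR

/-- **Counting the permutations below a given one in the strong Bruhat order is `#P`-complete, and
Q1 fails iff it can be done in polynomial time.**
(1) `#P ⊆ FP` iff some polynomial-time function computes from the one-line notation of every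
permutation `w` the number of permutations `v ≤ w` in the strong Bruhat order.
(2) The counting function `below` is in `#P` and `#P`-hard under polynomial-time Turing reductions.
(3) Its value at the one-line notation of `w` is the number of permutations `v ≤ w`. -/
theorem result :
    ((∀ f : List Bool → ℕ, SharpP f → FP f) ↔
      ∃ g : List Bool → List Bool, PolyTime g ∧
        ∀ (n : ℕ) (w : Equiv.Perm (Fin n)), g (bits (List.ofFn fun k => (w k).val)) =
          (Nat.card {v : Equiv.Perm (Fin n) // Bruhat v w}).bits) ∧
    (SharpP (strFn below) ∧ SharpPHard (strFn below)) ∧
    ∀ (n : ℕ) (w : Equiv.Perm (Fin n)), below (List.ofFn fun k => (w k).val) =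
      Nat.card {v : Equiv.Perm (Fin n) // Bruhat v w} :=
  ⟨Pool.Agent.NPC.TH925BR.fp_iff_br,
    ⟨Pool.Agent.NPC.TH925BR.sharpP_br, Pool.Agent.NPC.TH925BR.hard_br⟩,
    fun _ w => below_eq _ w rfl⟩

end Pool.Agent.Results.MP_381749_lc.BruhatIntervals
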