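import Pool.Agent.TH686.LE.CAPoly
import Pool.Agent.TH686.LE.Mem2

/-!
# MP_381749_lc: counting the linear extensions of unions of a chain and an antichain

The classes `SharpP` and `FP`, Turing reductions and `SharpPHard` are defined in
`Pool/Agent/H527R2/SharpP.lean`, `PolyTime` (Mathlib Turing machines) and the bit code `bits` in
`Pool/Agent/NPC/Defs.lean`. Posets on `{0, …, n-1}` are given by their 0-1 matrices;
`IntervalOrder`, `NFree` and the number `numLE` of linear extensions are defined in
`Pool/Agent/TH686/LE/Defs.lean`, `ChainAntichain` in `Pool/Agent/TH686/LE/CA.lean`.

The reduction (`Pool/Agent/TH686/LE`). If the elements `x` of the antichain may be in the last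
`α x` slots before, or in the first `β x` slots behind, the middle of the chain, then the number of
linear extensions is the sum over the sets `L` of the elements before the middle of the product of
the numbers `α x + #{y ∈ L before x}`, `x ∈ L`, and `β x + #{y ∉ L before x}`, `x ∉ L`, where
before refers to two orders, in which `α` and `β` are nondecreasing. These polynomials are evaluated
by interpolation at negative arguments, at which the products vanish unless `L` satisfies exact
counting conditions; so they express the number of perfect matchings of a bipartite graph.
-/

namespace Pool.Agent.Results.MP_381749_lc.ChainAntichain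

open Pool.Agent.NPC Pool.Agent.NPC.Cnt Pool.Agent.TH686.LE
open Pool.Agent.NPC.H549NRed (hard_of_nred sharpP_le_of_nred)

open Classical in
/-- the number of linear extensions of an N-free interval order that is the union of a chain and an
antichain, given by its matrix; `0` for all other inputs -/
noncomputable def numLER (A : List (List Bool)) : ℕ :=
  if (IntervalOrder A ∧ NFree A) ∧ ChainAntichain A then numLE A else 0

theorem numLER_eq : numLER = numLEc H686CA.Valid := by
  funext A
  unfold numLER numLEc H686CA.Valid
  by_cases h : (IntervalOrder A ∧ NFree A) ∧ ChainAntichain A
  · rw [if_pos h, if_pos h]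
  · rw [if_neg h, if_neg h]

/-- **Counting the linear extensions of unions of a chain and an antichain is `#P`-complete, and Q1
fails iff it can be done in polynomial time.**
(1) `#P ⊆ FP` iff some polynomial-time function computes the number of linear extensions of every
N-free interval order that is the union of a chain and an antichain, from its matrix.
(2) The function with this value at the matrices of these orders, and `0` at all other inputs, is
in `#P` and is `#P`-hard under polynomial-time Turing reductions. -/
theorem result :
    ((∀ f : List Bool → ℕ, SharpP f → FP f) ↔
      ∃ g : List Bool → List Bool, PolyTime g ∧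
        ∀ A : List (List Bool), IntervalOrder A → NFree A → ChainAntichain A →
          g (bits A) = (numLE A).bits) ∧
    (SharpP (strFn numLER) ∧ SharpPHard (strFn numLER)) := by
  have hmem : SharpP (strFn (numLEc H686CA.Valid)) := H686LE.memG H686LE.vcB_p H686LE.vcB_iff
  rw [numLER_eq]
  refine ⟨⟨fun h => ?_, fun ⟨g, hg, hgF⟩ k hk => ?_⟩, hmem, ?_⟩
  · refine ⟨_, h _ hmem, fun A h1 h2 h3 => ?_⟩
    rw [strFn_bits, numLEc, if_pos (show H686CA.Valid A from ⟨⟨h1, h2⟩, h3⟩)]
  · exact sharpP_le_of_nred H686CA.nred_all
      ⟨g, hg, fun b hb => hgF b hb.1.1 hb.1.2 hb.2⟩ k hk
  · refine hard_of_nred H686CA.nred_all (g := numLEc H686CA.Valid) (fun b hb => if_pos hb)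
      (Polynomial.X * Polynomial.X + Polynomial.C 1) (fun A => ?_)
    refine (numLEc_size _ A).trans ?_
    have h := length_lt_sz A
    simp only [Polynomial.eval_add, Polynomial.eval_mul, Polynomial.eval_X, Polynomial.eval_C]
    have := Nat.mul_le_mul h.le h.le
    omega

end Pool.Agent.Results.MP_381749_lc.ChainAntichain
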