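import Pool.Agent.TH678.CT.Final

/-!
# `#P` versus `FP` relative to an oracle: the sizes of the sets of oracles

For every gauge `f` the set of the oracles relative to which `#P ⊆ FP` is a null set for `f` if
and only if for every `ε > 0` there are infinitely many `N` with `f N ≤ 2 ^ ((log N) ^ ε)`. The
same threshold holds for the set of the oracles relative to which `P = NP` but `#P` is not
contained in `FP`, for the set of the oracles relative to which `PH = P` and `⊕P = EXP`, and for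
every set of oracles which contains one of the first and the (intersection of the) last two of
these sets and whose members satisfy `NP ⊆ coNP/poly`.
-/

set_option autoImplicit false

namespace Pool.Agent.Results.MP_381749_lc.CountingGauge

open Pool.Agent.NPC Pool.Agent.H620R2.Gauge Pool.Agent.TH678.CT

theorem result (f : ℕ → ℝ) :
    (∀ O : Set Oracle,
      ((∀ A : Oracle, (∀ g, IsSharpP A g → IsFPnum A g) → A ∈ O) ∨
        (∀ A : Oracle, (∀ L, IsPH A L → IsP A L) → (∀ L, IsEXP A L → IsParP A L) →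
          (∃ L, IsParP A L ∧ ¬ IsP A L) → A ∈ O)) →
      (∀ A ∈ O, ∀ L, IsNP A L → WithAdvice (IsNP A) Lᶜ) →
      (Null f O ↔
        ∀ ε : ℝ, 0 < ε → ∃ᶠ N : ℕ in Filter.atTop, f N ≤ 2 ^ (Real.logb 2 N) ^ ε)) ∧
    (Null f {A : Oracle | ∀ g, IsSharpP A g → IsFPnum A g} ↔
      ∀ ε : ℝ, 0 < ε → ∃ᶠ N : ℕ in Filter.atTop, f N ≤ 2 ^ (Real.logb 2 N) ^ ε) ∧
    (Null f {A : Oracle | (∀ L, IsNP A L → IsP A L) ∧ ∃ g, IsSharpP A g ∧ ¬ IsFPnum A g} ↔
      ∀ ε : ℝ, 0 < ε → ∃ᶠ N : ℕ in Filter.atTop, f N ≤ 2 ^ (Real.logb 2 N) ^ ε) ∧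
    (Null f {A : Oracle | (∀ L, IsPH A L → IsP A L) ∧ ∀ L, IsEXP A L → IsParP A L} ↔
      ∀ ε : ℝ, 0 < ε → ∃ᶠ N : ℕ in Filter.atTop, f N ≤ 2 ^ (Real.logb 2 N) ^ ε) :=
  main f

end Pool.Agent.Results.MP_381749_lc.CountingGauge
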