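import Pool.Agent.W901.NU.PPc

/-!
# `#P` versus `FP` and the prediction of answers: the square-root law

`SharpP f`: the function `f` counts the certificates `w`, all strings of a length polynomial in the
length of the input `x`, for which a polynomial-time verifier accepts `(x, w)`; `FP f`: the function
`f` is computable in polynomial time, with values in binary. `InPPclass`: the class `PP` (more than
half of the certificates are accepted); `PPHard`: hardness for `PP` under polynomial-time many-one
reductions. Polynomial time is Mathlib's `Turing.TM2ComputableInPolyTime`.

A set `A` is `(δ, ε)`-predictable (`Predictable δ ε A`) if a polynomial-time algorithm which asks
`O(log n)` questions to some oracle (an arbitrary set) computes, for every nonempty list of `m`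
questions of length at most `m ^ ε` about membership in `A`, predictions for a nonempty subset of `s`
of the questions such that the number of right predictions and the number of wrong predictions differ
by at least `m ^ δ * √ s` (random guessing has standard deviation `√ s`). It is fully
`δ`-predictable (`FullyPredictable δ A`) if there are such predictions for all questions and all lists
of questions of any length.

The theorem: for `0 < δ ≤ 1 / 2` and `ε > 0` the following are equivalent.

* Every function in `#P` is computable in polynomial time.
* `PP = P`.
* Some `PP`-hard set is `(δ, ε)`-predictable.
* All sets in `PP` are fully `δ`-predictable.

For `δ ≤ 0` every set whatsoever is fully `δ`-predictable: the threshold is the square root of the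
number of predictions.

This is the theorem `pp_law` of the starting file `Pool/Agent/W901/NU/PPc.lean`, which had not been
handed in. Proof: predictions give `P = NP` (the square-root law for `NP`, as `PP`-hard sets are
`NP`-hard); online learning and boosting give short advice strings for the thresholds of all partial
sums of the certificates; an advice string can be tested locally (the value at an inner node of the
tree of the certificates is the sum of the values at its two sons), so a right advice string can be
found in polynomial time because `P = NP`.
-/

set_option autoImplicit false

namespace Pool.Agent.Results.MP_381749_lc.SquareRootLaw

open Pool.Agent.NPC Pool.Agent.W901.AT Pool.Agent.W901.NU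
open Pool.Agent.NPC.Cnt (SharpP FP)

/-- **The square-root law for counting.** -/
theorem result (δ ε : ℝ) :
    (0 < δ → δ ≤ 1 / 2 → 0 < ε → List.TFAE
      [∀ f : List Bool → ℕ, SharpP f → FP f,
        ∀ L : Set (List Bool), InPPclass L → InP L,
        ∃ A : Set (List Bool), PPHard A ∧ Predictable δ ε A,
        ∀ A : Set (List Bool), InPPclass A → FullyPredictable δ A]) ∧
    (δ ≤ 0 → ∀ A : Set (List Bool), FullyPredictable δ A) :=
  pp_law δ ε

end Pool.Agent.Results.MP_381749_lc.SquareRootLaw
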